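import Pool.Agent.U26.SG.Stm6
import Pool.Agent.Y265.RW.Dp1
import Pool.Agent.W924.RW.WP

/-!
# Project SG, package TR: the remainder of the Taylor expansion
-/

set_option autoImplicit false
open MeasureTheory Filter Topology Complex
open scoped ContDiff ENNReal BoundedContinuousFunction

namespace Pool.Agent.U876.SG

open Pool.Agent.U26.SG (tm PS)

noncomputable section

/-- the absolute values of the coefficients -/
def cf (w : ℂ) (p : ℕ × ℕ) : ℝ :=
  ((‖w‖ / 2) ^ p.1 / p.1.factorial) * ((‖w‖ / 2) ^ p.2 / p.2.factorial)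

lemma cf_nonneg (w : ℂ) (p : ℕ × ℕ) : 0 ≤ cf w p := by unfold cf; positivity

lemma tm_norm (x : ℤ → ℂ) (w : ℂ) (p : ℕ × ℕ) : ‖tm x w p‖ = cf w p * ‖x ((p.1 : ℤ) - p.2)‖ := by
  unfold tm cf
  rw [norm_div, norm_mul, norm_mul, norm_mul, norm_pow, norm_pow, norm_pow, norm_div, norm_div,
    norm_neg, norm_one, one_pow, RCLike.norm_conj, Complex.norm_natCast, Complex.norm_ofNat]
  push_cast
  have h1 : (p.1.factorial : ℝ) ≠ 0 := by exact_mod_cast p.1.factorial_ne_zero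
  have h2 : (p.2.factorial : ℝ) ≠ 0 := by exact_mod_cast p.2.factorial_ne_zero
  field_simp

/-- weighted Cauchy-Schwarz -/
lemma cs (x : ℤ → ℂ) (w : ℂ) (s : Finset (ℕ × ℕ)) :
    ‖∑ p ∈ s, tm x w p‖ ^ 2 ≤ (∑ p ∈ s, cf w p) * ∑ p ∈ s, cf w p * ‖x ((p.1 : ℤ) - p.2)‖ ^ 2 := by
  have h1 : ‖∑ p ∈ s, tm x w p‖ ≤ ∑ p ∈ s, cf w p * ‖x ((p.1 : ℤ) - p.2)‖ :=
    (norm_sum_le _ _).trans (le_of_eq (Finset.sum_congr rfl fun p _ => tm_norm x w p))
  refine (pow_le_pow_left₀ (norm_nonneg _) h1 2).trans ?_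
  refine Finset.sum_sq_le_sum_mul_sum_of_sq_le_mul s (fun p _ => cf_nonneg w p)
    (fun p _ => mul_nonneg (cf_nonneg w p) (by positivity)) fun p _ => le_of_eq (by ring)

/-- the homogeneous parts -/
def TT (w : ℂ) (m : ℕ) (x : ℤ → ℂ) : ℂ := ∑ p ∈ Finset.HasAntidiagonal.antidiagonal m, tm x w p

lemma tm_succ_left (x : ℤ → ℂ) (w : ℂ) (p : ℕ × ℕ) :
    ((p.1 : ℂ) + 1) * tm x w (p.1 + 1, p.2) =
      (-1) ^ p.2 * (w * x ((p.1 : ℤ) - p.2 + 1) / 2) * ((w / 2) ^ p.1 * (starRingEnd ℂ w / 2) ^ p.2) /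
    (p.1.factorial * p.2.factorial : ℕ) := by
  unfold tm
  simp only [Nat.factorial_succ]
  rw [show (((p.1 + 1 : ℕ) : ℤ) - p.2) = (p.1 : ℤ) - p.2 + 1 by push_cast; ring]
  have h1 : (p.1.factorial : ℂ) ≠ 0 := by exact_mod_cast p.1.factorial_ne_zero
  have h2 : (p.2.factorial : ℂ) ≠ 0 := by exact_mod_cast p.2.factorial_ne_zero
  have h3 : (p.1 : ℂ) + 1 ≠ 0 := by exact_mod_cast Nat.succ_ne_zero p.1
  push_cast
  field_simp
  ring

lemma tm_succ_right (x : ℤ → ℂ) (w : ℂ) (p : ℕ × ℕ) :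
    ((p.2 : ℂ) + 1) * tm x w (p.1, p.2 + 1) =
      (-1) ^ p.2 * (- (starRingEnd ℂ w) * x ((p.1 : ℤ) - p.2 - 1) / 2) *
        ((w / 2) ^ p.1 * (starRingEnd ℂ w / 2) ^ p.2) /
    (p.1.factorial * p.2.factorial : ℕ) := by
  unfold tm
  simp only [Nat.factorial_succ]
  rw [show ((p.1 : ℤ) - ((p.2 + 1 : ℕ) : ℤ)) = (p.1 : ℤ) - p.2 - 1 by push_cast; ring]
  have h1 : (p.1.factorial : ℂ) ≠ 0 := by exact_mod_cast p.1.factorial_ne_zero
  have h2 : (p.2.factorial : ℂ) ≠ 0 := by exact_mod_cast p.2.factorial_ne_zero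
  have h3 : (p.2 : ℂ) + 1 ≠ 0 := by exact_mod_cast Nat.succ_ne_zero p.2
  push_cast
  field_simp
  ring

lemma sum_succ (m : ℕ) (f : ℕ × ℕ → ℂ) :
    ∑ p ∈ Finset.HasAntidiagonal.antidiagonal m, (((p.1 : ℂ) + 1) * f (p.1 + 1, p.2) + ((p.2 : ℂ) + 1) * f (p.1, p.2 + 1)) =
      ((m : ℂ) + 1) * ∑ p ∈ Finset.HasAntidiagonal.antidiagonal (m + 1), f p := by
  rw [Finset.sum_add_distrib]
  have h1 : ∑ p ∈ Finset.HasAntidiagonal.antidiagonal m, ((p.1 : ℂ) + 1) * f (p.1 + 1, p.2) =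
      ∑ p ∈ Finset.HasAntidiagonal.antidiagonal (m + 1), (p.1 : ℂ) * f p := by
    rw [Finset.Nat.sum_antidiagonal_succ (f := fun p => (p.1 : ℂ) * f p)]
    simp
  have h2 : ∑ p ∈ Finset.HasAntidiagonal.antidiagonal m, ((p.2 : ℂ) + 1) * f (p.1, p.2 + 1) =
      ∑ p ∈ Finset.HasAntidiagonal.antidiagonal (m + 1), (p.2 : ℂ) * f p := by
    rw [Finset.Nat.sum_antidiagonal_succ' (f := fun p => (p.2 : ℂ) * f p)]
    simp
  rw [h1, h2, ← Finset.sum_add_distrib, Finset.mul_sum]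
  refine Finset.sum_congr rfl fun p hp => ?_
  have h3 : ((p.1 : ℂ) + p.2) = (m : ℂ) + 1 := by exact_mod_cast Finset.HasAntidiagonal.mem_antidiagonal.1 hp
  rw [← h3]; ring

/-- the ladder relations along a segment -/
def Lad (w : ℂ) (G : ℤ → ℝ → ℂ) (s : ℝ) : Prop :=
  ∀ a, HasDerivAt (G a) ((w * G (a + 1) s - starRingEnd ℂ w * G (a - 1) s) / 2) s

lemma TT_deriv {w : ℂ} {G : ℤ → ℝ → ℂ} {s : ℝ} (h : Lad w G s) (m : ℕ) :
    HasDerivAt (fun s => TT w m (fun a => G a s)) (((m : ℂ) + 1) * TT w (m + 1) (fun a => G a s)) s := by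
  unfold TT
  rw [← sum_succ]
  refine HasDerivAt.fun_sum fun p _ => ?_
  rw [tm_succ_left, tm_succ_right]
  unfold tm
  have h1 := (((h ((p.1 : ℤ) - p.2)).const_mul ((-1) ^ p.2)).mul_const
    ((w / 2) ^ p.1 * (starRingEnd ℂ w / 2) ^ p.2)).div_const ((p.1.factorial * p.2.factorial : ℕ) : ℂ)
  refine h1.congr_deriv ?_
  ring

/-- the Taylor polynomial at `s` evaluated at `1` -/
def HH (w : ℂ) (G : ℤ → ℝ → ℂ) (N : ℕ) (s : ℝ) : ℂ :=
  ∑ m ∈ Finset.range N, (1 - (s : ℂ)) ^ m * TT w m (fun a => G a s)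

lemma HH_deriv {w : ℂ} {G : ℤ → ℝ → ℂ} {s : ℝ} (h : Lad w G s) (N : ℕ) :
    HasDerivAt (HH w G N) ((N : ℂ) * (1 - (s : ℂ)) ^ (N - 1) * TT w N (fun a => G a s)) s := by
  induction N with
  | zero =>
    have e : HH w G 0 = fun _ => 0 := by funext s; simp [HH]
    rw [e]
    simpa using hasDerivAt_const s (0 : ℂ)
  | succ N ih =>
    have e : HH w G (N + 1) = fun s => HH w G N s + (1 - (s : ℂ)) ^ N * TT w N (fun a => G a s) := by
      funext s
      unfold HH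
      rw [Finset.sum_range_succ]
    rw [e]
    have h1 : HasDerivAt (fun s : ℝ => (1 - (s : ℂ)) ^ N) ((N : ℂ) * (1 - (s : ℂ)) ^ (N - 1) * (-1)) s := by
      have h2 : HasDerivAt (fun s : ℝ => 1 - (s : ℂ)) (-1) s := by
        simpa using (Complex.ofRealCLM.hasDerivAt (x := s)).const_sub (1 : ℂ)
      exact h2.pow N
    have h3 := ih.add (h1.mul (TT_deriv h N))
    refine h3.congr_deriv ?_
    rw [Nat.add_sub_cancel]
    push_cast
    ring

lemma sq_int {f : ℝ → ℝ} (hf : ContinuousOn f (Set.Icc 0 1)) :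
    (∫ s in (0 : ℝ)..1, f s) ^ 2 ≤ ∫ s in (0 : ℝ)..1, f s ^ 2 := by
  have hf' : ContinuousOn f (Set.uIcc 0 1) := by rwa [Set.uIcc_of_le zero_le_one]
  obtain ⟨c, hc⟩ : ∃ c, c = ∫ s in (0 : ℝ)..1, f s := ⟨_, rfl⟩
  have h1 : 0 ≤ ∫ s in (0 : ℝ)..1, (f s - c) ^ 2 :=
    intervalIntegral.integral_nonneg zero_le_one fun s _ => sq_nonneg _
  have i1 : IntervalIntegrable (fun s => f s ^ 2) volume 0 1 := (hf'.pow 2).intervalIntegrable
  have i2 : IntervalIntegrable f volume 0 1 := hf'.intervalIntegrable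
  have e : ∫ s in (0 : ℝ)..1, (f s - c) ^ 2 = (∫ s in (0 : ℝ)..1, f s ^ 2) - 2 * c * c + c ^ 2 := by
    have e1 : ∀ s, (f s - c) ^ 2 = f s ^ 2 - 2 * c * f s + c ^ 2 := fun s => by ring
    simp only [e1]
    rw [intervalIntegral.integral_add (i1.sub (i2.const_mul _)) intervalIntegrable_const,
      intervalIntegral.integral_sub i1 (i2.const_mul _), intervalIntegral.integral_const_mul,
      intervalIntegral.integral_const, ← hc]
    simp
  rw [e] at h1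
  rw [← hc]
  nlinarith

/-- the remainder at a point -/
lemma taylor {w : ℂ} {G : ℤ → ℝ → ℂ} (h : ∀ s ∈ Set.Icc (0 : ℝ) 1, Lad w G s) {N : ℕ} (hN : 1 ≤ N) :
    ‖G 0 1 - ∑ m ∈ Finset.range N, TT w m (fun a => G a 0)‖ ^ 2 ≤
      (N : ℝ) ^ 2 * ((∑ p ∈ Finset.HasAntidiagonal.antidiagonal N, cf w p) * ∑ p ∈ Finset.HasAntidiagonal.antidiagonal N,
        cf w p * ∫ s in (0 : ℝ)..1, ‖G ((p.1 : ℤ) - p.2) s‖ ^ 2) := by
  have hG : ∀ a, ContinuousOn (G a) (Set.Icc 0 1) := fun a s hs =>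
    (h s hs a).continuousAt.continuousWithinAt
  have hTc : ∀ m, ContinuousOn (fun s => TT w m (fun a => G a s)) (Set.Icc 0 1) := fun m s hs =>
    (TT_deriv (h s hs) m).continuousAt.continuousWithinAt
  have hu : Set.uIcc (0 : ℝ) 1 = Set.Icc 0 1 := Set.uIcc_of_le zero_le_one
  have hder : ContinuousOn (fun s : ℝ => (N : ℂ) * (1 - (s : ℂ)) ^ (N - 1) * TT w N (fun a => G a s))
      (Set.Icc 0 1) := ContinuousOn.mul (by fun_prop) (hTc N)
  have h1 : ∫ s in (0 : ℝ)..1, (N : ℂ) * (1 - (s : ℂ)) ^ (N - 1) * TT w N (fun a => G a s) =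
      HH w G N 1 - HH w G N 0 := by
    refine intervalIntegral.integral_eq_sub_of_hasDerivAt (fun s hs => ?_) ?_
    · rw [hu] at hs
      exact HH_deriv (h s hs) N
    · refine ContinuousOn.intervalIntegrable ?_
      rwa [hu]
  have h2 : HH w G N 1 = G 0 1 := by
    unfold HH
    rw [Finset.sum_eq_single_of_mem 0 (Finset.mem_range.2 hN)]
    · simp [TT, tm]
    · intro m _ hm
      simp [hm]
  have h3 : HH w G N 0 = ∑ m ∈ Finset.range N, TT w m (fun a => G a 0) := by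
    unfold HH
    simp
  rw [h2, h3] at h1
  rw [← h1]
  have h4 : ‖∫ s in (0 : ℝ)..1, (N : ℂ) * (1 - (s : ℂ)) ^ (N - 1) * TT w N (fun a => G a s)‖ ≤
      ∫ s in (0 : ℝ)..1, (N : ℝ) * ‖TT w N (fun a => G a s)‖ := by
    refine intervalIntegral.norm_integral_le_of_norm_le zero_le_one ?_ ?_
    · refine Eventually.of_forall fun s hs => ?_
      rw [norm_mul, norm_mul, Complex.norm_natCast, norm_pow]
      have h5 : ‖1 - (s : ℂ)‖ ≤ 1 := by
        rw [← Complex.ofReal_one, ← Complex.ofReal_sub, Complex.norm_real, Real.norm_eq_abs, abs_le]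
        constructor <;> linarith [hs.1, hs.2]
      have h6 : ‖1 - (s : ℂ)‖ ^ (N - 1) ≤ 1 := pow_le_one₀ (norm_nonneg _) h5
      have h7 : (N : ℝ) * ‖1 - (s : ℂ)‖ ^ (N - 1) ≤ N := mul_le_of_le_one_right (Nat.cast_nonneg _) h6
      exact mul_le_mul_of_nonneg_right h7 (norm_nonneg _)
    · refine ContinuousOn.intervalIntegrable ?_
      rw [hu]
      exact continuousOn_const.mul (hTc N).norm
  have h5 := pow_le_pow_left₀ (norm_nonneg _) h4 2
  refine h5.trans ?_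
  rw [intervalIntegral.integral_const_mul, mul_pow]
  refine mul_le_mul_of_nonneg_left ?_ (by positivity)
  refine (sq_int (hTc N).norm).trans ?_
  have h6 : ∫ s in (0 : ℝ)..1, ‖TT w N (fun a => G a s)‖ ^ 2 ≤ ∫ s in (0 : ℝ)..1,
      ((∑ p ∈ Finset.HasAntidiagonal.antidiagonal N, cf w p) * ∑ p ∈ Finset.HasAntidiagonal.antidiagonal N,
        cf w p * ‖G ((p.1 : ℤ) - p.2) s‖ ^ 2) := by
    refine intervalIntegral.integral_mono_on zero_le_one ?_ ?_ fun s _ => cs _ _ _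
    · refine ContinuousOn.intervalIntegrable ?_
      rw [hu]
      exact (hTc N).norm.pow 2
    · refine ContinuousOn.intervalIntegrable ?_
      rw [hu]
      exact continuousOn_const.mul (continuousOn_finsetSum _ fun p _ =>
        continuousOn_const.mul ((hG _).norm.pow 2))
  refine h6.trans (le_of_eq ?_)
  rw [intervalIntegral.integral_const_mul, intervalIntegral.integral_finsetSum]
  · simp only [intervalIntegral.integral_const_mul]
  · intro p _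
    refine ContinuousOn.intervalIntegrable ?_
    rw [hu]
    exact continuousOn_const.mul ((hG _).norm.pow 2)

/-- the coefficients outside the triangle -/
def RR (w : ℂ) (N : ℕ) : ℝ :=
  ∑ p ∈ (Finset.range N ×ˢ Finset.range N).filter (fun p => ¬ p.1 + p.2 < N), cf w p

lemma tri_sum {E : Type} [AddCommMonoid E] (N : ℕ) (f : ℕ × ℕ → E) :
    ∑ m ∈ Finset.range N, ∑ p ∈ Finset.HasAntidiagonal.antidiagonal m, f p =
      ∑ p ∈ (Finset.range N ×ˢ Finset.range N).filter (fun p => p.1 + p.2 < N), f p := by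
  rw [← Finset.sum_fiberwise_of_maps_to (s := (Finset.range N ×ˢ Finset.range N).filter
    (fun p => p.1 + p.2 < N)) (t := Finset.range N) (g := fun p => p.1 + p.2)
    (fun p hp => Finset.mem_range.2 (Finset.mem_filter.1 hp).2)]
  refine Finset.sum_congr rfl fun m hm => Finset.sum_congr ?_ fun _ _ => rfl
  ext p
  rw [Finset.mem_range] at hm
  simp only [Finset.HasAntidiagonal.mem_antidiagonal, Finset.mem_filter, Finset.mem_product, Finset.mem_range]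
  constructor
  · intro h; exact ⟨⟨⟨by omega, by omega⟩, by omega⟩, h⟩
  · intro h; exact h.2

lemma PS_eq (N : ℕ) (x : ℤ → ℂ) (w : ℂ) : PS N x w = ∑ m ∈ Finset.range N, TT w m x +
    ∑ p ∈ (Finset.range N ×ˢ Finset.range N).filter (fun p => ¬ p.1 + p.2 < N), tm x w p := by
  unfold PS TT
  rw [tri_sum, Finset.sum_filter_add_sum_filter_not]

/-- the pointwise estimate -/
lemma point {w : ℂ} {G : ℤ → ℝ → ℂ} (h : ∀ s ∈ Set.Icc (0 : ℝ) 1, Lad w G s) {N : ℕ} (hN : 1 ≤ N) :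
    ‖G 0 1 - PS N (fun a => G a 0) w‖ ^ 2 ≤
      2 * ((N : ℝ) ^ 2 * ((∑ p ∈ Finset.HasAntidiagonal.antidiagonal N, cf w p) * ∑ p ∈ Finset.HasAntidiagonal.antidiagonal N,
        cf w p * ∫ s in (0 : ℝ)..1, ‖G ((p.1 : ℤ) - p.2) s‖ ^ 2)) +
      2 * (RR w N * ∑ p ∈ (Finset.range N ×ˢ Finset.range N).filter (fun p => ¬ p.1 + p.2 < N),
        cf w p * ‖G ((p.1 : ℤ) - p.2) 0‖ ^ 2) := by
  have h1 := taylor h hN
  have h2 := cs (fun a => G a 0) w
    ((Finset.range N ×ˢ Finset.range N).filter (fun p => ¬ p.1 + p.2 < N))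
  rw [PS_eq]
  obtain ⟨A, hA⟩ : ∃ A, A = G 0 1 - ∑ m ∈ Finset.range N, TT w m (fun a => G a 0) := ⟨_, rfl⟩
  obtain ⟨B, hB⟩ : ∃ B, B = ∑ p ∈ (Finset.range N ×ˢ Finset.range N).filter
    (fun p => ¬ p.1 + p.2 < N), tm (fun a => G a 0) w p := ⟨_, rfl⟩
  rw [← hA] at h1
  rw [← hB] at h2 ⊢
  have e : G 0 1 - (∑ m ∈ Finset.range N, TT w m (fun a => G a 0) + B) = A - B := by rw [hA]; ring
  rw [e]
  have h3 : ‖A - B‖ ^ 2 ≤ 2 * ‖A‖ ^ 2 + 2 * ‖B‖ ^ 2 := by
    have := norm_sub_le A B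
    have h4 := pow_le_pow_left₀ (norm_nonneg _) this 2
    nlinarith [sq_nonneg (‖A‖ - ‖B‖)]
  unfold RR
  linarith

/-! the size of the coefficients -/

lemma cf_anti (w : ℂ) (m : ℕ) :
    ∑ p ∈ Finset.HasAntidiagonal.antidiagonal m, cf w p = ‖w‖ ^ m / m.factorial := by
  have h1 := (Commute.all (‖w‖ / 2) (‖w‖ / 2)).add_pow' m
  rw [add_halves] at h1
  rw [h1, Finset.sum_div]
  refine Finset.sum_congr rfl fun p hp => ?_
  have hp' := Finset.HasAntidiagonal.mem_antidiagonal.1 hp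
  have h2 := Nat.add_choose_mul_factorial_mul_factorial p.2 p.1
  rw [add_comm p.2 p.1, hp'] at h2
  have h3 : ((m.choose p.1 : ℕ) : ℝ) * p.2.factorial * p.1.factorial = m.factorial := by
    exact_mod_cast h2
  have h4 : (p.1.factorial : ℝ) ≠ 0 := by exact_mod_cast p.1.factorial_ne_zero
  have h5 : (p.2.factorial : ℝ) ≠ 0 := by exact_mod_cast p.2.factorial_ne_zero
  have h6 : (m.factorial : ℝ) ≠ 0 := by exact_mod_cast m.factorial_ne_zero
  unfold cf
  rw [nsmul_eq_mul, eq_div_iff h6, ← h3]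
  field_simp

lemma RR_nonneg (w : ℂ) (N : ℕ) : 0 ≤ RR w N := Finset.sum_nonneg fun p _ => cf_nonneg w p

lemma exp_lim (x : ℝ) : Tendsto (fun N => ∑ m ∈ Finset.range N, x ^ m / m.factorial) atTop
    (𝓝 (Real.exp x)) := by
  have h := (NormedSpace.expSeries_div_hasSum_exp x).tendsto_sum_nat
  rwa [← Real.exp_eq_exp_ℝ] at h

lemma RR_lim (w : ℂ) : Tendsto (RR w) atTop (𝓝 0) := by
  have h1 := exp_lim (‖w‖ / 2)
  have h2 := exp_lim ‖w‖
  have h3 := (h1.mul h1).sub h2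
  rw [← Real.exp_add, add_halves, sub_self] at h3
  refine h3.congr fun N => ?_
  have e1 : (∑ m ∈ Finset.range N, (‖w‖ / 2) ^ m / m.factorial) *
      (∑ m ∈ Finset.range N, (‖w‖ / 2) ^ m / m.factorial) =
      ∑ p ∈ Finset.range N ×ˢ Finset.range N, cf w p := by
    rw [Finset.sum_mul_sum, Finset.sum_product]
    rfl
  have e2 : ∑ m ∈ Finset.range N, ‖w‖ ^ m / m.factorial =
      ∑ p ∈ (Finset.range N ×ˢ Finset.range N).filter (fun p => p.1 + p.2 < N), cf w p := by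
    rw [← tri_sum]
    exact Finset.sum_congr rfl fun m _ => (cf_anti w m).symm
  rw [e1, e2, ← Finset.sum_filter_add_sum_filter_not (Finset.range N ×ˢ Finset.range N)
    (fun p => p.1 + p.2 < N)]
  unfold RR
  ring

lemma KK_lim (w : ℂ) : Tendsto (fun N : ℕ => (N : ℝ) * (‖w‖ ^ N / N.factorial)) atTop (𝓝 0) := by
  refine squeeze_zero (fun N => by positivity) (fun N => ?_)
    (FloorSemiring.tendsto_pow_div_factorial_atTop (2 * ‖w‖))
  rw [mul_pow, mul_div_assoc]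
  refine mul_le_mul_of_nonneg_right ?_ (by positivity)
  exact_mod_cast Nat.lt_two_pow_self.le

/-! the integrals -/

open Pool.Agent.W745.RW (lap TF W Sol dx dy Dp Dm)
open Pool.Agent.Y265.RW (Fam cutoff cont_mul int_mul int_mulr)

lemma fam {Ω : Set ℂ} (hΩ : IsOpen Ω) {h : ℕ → ℝ} {u : ℕ → ℂ → ℝ} (hS : ∀ n, Sol Ω (h n) (u n)) :
    Fam Ω h (fun n a => W (h n) (u n) a) :=
  ⟨fun n a => (Pool.Agent.W924.RW.WP.main Ω hΩ (h n) (u n) (hS n)).1 a,
    fun n a z hz => (Pool.Agent.W924.RW.WP.main Ω hΩ (h n) (u n) (hS n)).2.1 a z hz,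
    fun n a z hz => (Pool.Agent.W924.RW.WP.main Ω hΩ (h n) (u n) (hS n)).2.2.1 a z hz,
    fun n a z hz => (Pool.Agent.W924.RW.WP.main Ω hΩ (h n) (u n) (hS n)).2.2.2 a z hz⟩

lemma lad {Ω : Set ℂ} (hΩ : IsOpen Ω) {h : ℕ → ℝ} {U : ℕ → ℤ → ℂ → ℂ} (hU : Fam Ω h U) (n : ℕ)
    (w z : ℂ) (s : ℝ) (hz : z + (s : ℂ) * ((h n : ℂ) * w) ∈ Ω) :
    Lad w (fun a s => U n a (z + (s : ℂ) * ((h n : ℂ) * w))) s := by
  intro a
  have hd : HasFDerivAt (U n a) (fderiv ℝ (U n a) (z + (s : ℂ) * ((h n : ℂ) * w)))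
      (z + (s : ℂ) * ((h n : ℂ) * w)) :=
    (((hU.smooth n a).contDiffAt (hΩ.mem_nhds hz)).differentiableAt (by simp)).hasFDerivAt
  have hl : HasDerivAt (fun s : ℝ => z + (s : ℂ) * ((h n : ℂ) * w)) ((h n : ℂ) * w) s := by
    simpa using ((Complex.ofRealCLM.hasDerivAt (x := s)).mul_const ((h n : ℂ) * w)).const_add z
  have h1 := hd.comp_hasDerivAt s hl
  rw [hU.disp n a w hz] at h1
  exact h1

lemma fub {φ : ℂ → ℝ} (hφ : Continuous φ) (hφc : HasCompactSupport φ) {F : ℂ → ℂ}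
    (hF : Continuous F) {B : ℝ} (hB : ∀ z, ‖F z‖ ≤ B) (y : ℂ) (D : ℝ)
    (hD : ∀ s ∈ Set.Icc (0 : ℝ) 1, ∫ z, φ z * ‖F (z + (s : ℂ) * y)‖ ^ 2 ≤ D) :
    Integrable (fun z => ∫ s in (0 : ℝ)..1, φ z * ‖F (z + (s : ℂ) * y)‖ ^ 2) ∧
      ∫ z, (∫ s in (0 : ℝ)..1, φ z * ‖F (z + (s : ℂ) * y)‖ ^ 2) ≤ D := by
  have hφi : Integrable φ := hφ.integrable_of_hasCompactSupport hφc
  have hint : Integrable (fun p : ℂ × ℝ => φ p.1 * ‖F (p.1 + (p.2 : ℂ) * y)‖ ^ 2)
      ((volume : Measure ℂ).prod ((volume : Measure ℝ).restrict (Set.Ioc 0 1))) := by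
    refine Integrable.mono' (g := fun p : ℂ × ℝ => B ^ 2 * |φ p.1|)
      ((hφi.abs.const_mul (B ^ 2)).comp_fst _) ?_ (Eventually.of_forall fun p => ?_)
    · refine Continuous.aestronglyMeasurable ?_
      fun_prop
    · rw [Real.norm_eq_abs, abs_mul, abs_of_nonneg (sq_nonneg ‖F (p.1 + (p.2 : ℂ) * y)‖), mul_comm]
      exact mul_le_mul_of_nonneg_right (pow_le_pow_left₀ (norm_nonneg _) (hB _) 2) (abs_nonneg _)
  simp only [intervalIntegral.integral_of_le (zero_le_one' ℝ)]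
  refine ⟨hint.integral_prod_left, ?_⟩
  rw [integral_integral_swap hint]
  calc ∫ s in Set.Ioc (0 : ℝ) 1, (∫ z, φ z * ‖F (z + (s : ℂ) * y)‖ ^ 2)
      ≤ ∫ _s in Set.Ioc (0 : ℝ) 1, D :=
        setIntegral_mono_on hint.integral_prod_right (by simp) measurableSet_Ioc
          fun s hs => hD s (Set.Ioc_subset_Icc_self hs)
    _ = D := by simp

lemma main_n {Ω : Set ℂ} (hΩ : IsOpen Ω) {h : ℕ → ℝ} {U : ℕ → ℤ → ℂ → ℂ} (hU : Fam Ω h U) (n : ℕ)
    {φ ζ : ℂ → ℝ} (hφ : TF Ω φ) (hφ0 : ∀ z, 0 ≤ φ z) {M : ℝ} (hM : ∀ z, φ z ≤ M) (hζ : TF Ω ζ)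
    (hζ0 : ∀ z, 0 ≤ ζ z) (w : ℂ)
    (hK : ∀ z, φ z ≠ 0 → ∀ s ∈ Set.Icc (0 : ℝ) 1, z + (s : ℂ) * ((h n : ℂ) * w) ∈ Ω ∧
      ζ (z + (s : ℂ) * ((h n : ℂ) * w)) = 1) {N : ℕ} (hN : 1 ≤ N) {C' : ℝ}
    (hC : ∀ a ∈ Finset.Icc (-(N : ℤ)) N, M * ∫ z, ζ z * ‖U n a z‖ ^ 2 ≤ C') :
    ∫ z, φ z * ‖U n 0 (z + (h n : ℂ) * w) - PS N (fun a => U n a z) w‖ ^ 2 ≤
      2 * ((N : ℝ) * (‖w‖ ^ N / N.factorial)) ^ 2 * C' + 2 * RR w N ^ 2 * C' := by
  have hM0 : 0 ≤ M := (hφ0 0).trans (hM 0)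
  obtain ⟨F, hFdef⟩ : ∃ F : ℤ → ℂ → ℂ, F = fun a z => (ζ z : ℂ) * U n a z := ⟨_, rfl⟩
  have hFc : ∀ a, Continuous (F a) := fun a => by
    rw [hFdef]; exact cont_mul hΩ hζ (hU.smooth n a).continuousOn
  have hFs : ∀ a, HasCompactSupport (F a) := fun a => by
    rw [hFdef]
    exact (hζ.2.1.comp_left (g := fun x : ℝ => (x : ℂ)) Complex.ofReal_zero).mul_right
  have hFb : ∀ a, ∃ B, ∀ z, ‖F a z‖ ≤ B := fun a => (hFs a).exists_bound_of_continuous (hFc a)
  have hF1 : ∀ a z, ζ z = 1 → F a z = U n a z := fun a z hz => by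
    rw [hFdef]; simp [hz]
  obtain ⟨y, hy⟩ : ∃ y : ℂ, y = (h n : ℂ) * w := ⟨_, rfl⟩
  rw [← hy] at hK
  have hφc : Continuous φ := hφ.1.continuous
  have hD : ∀ a ∈ Finset.Icc (-(N : ℤ)) N, ∀ s ∈ Set.Icc (0 : ℝ) 1,
      ∫ z, φ z * ‖F a (z + (s : ℂ) * y)‖ ^ 2 ≤ C' := by
    intro a ha s hs
    refine le_trans ?_ (hC a ha)
    rw [← integral_sub_right_eq_self (fun z => φ z * ‖F a (z + (s : ℂ) * y)‖ ^ 2) ((s : ℂ) * y),
      ← integral_const_mul]
    refine integral_mono_of_nonneg (Eventually.of_forall fun z => ?_)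
      ((int_mulr hΩ hζ ((hU.smooth n a).continuousOn.norm.pow 2)).const_mul M)
      (Eventually.of_forall fun z => ?_)
    · exact mul_nonneg (hφ0 _) (by positivity)
    · simp only [sub_add_cancel]
      by_cases h0 : φ (z - (s : ℂ) * y) = 0
      · rw [h0, zero_mul]
        exact mul_nonneg hM0 (mul_nonneg (hζ0 z) (by positivity))
      · have h1 := (hK _ h0 s hs).2
        rw [sub_add_cancel] at h1
        rw [hF1 a z h1, h1, one_mul]
        exact mul_le_mul_of_nonneg_right (hM _) (by positivity)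
  have hfub : ∀ a ∈ Finset.Icc (-(N : ℤ)) N,
      Integrable (fun z => ∫ s in (0 : ℝ)..1, φ z * ‖F a (z + (s : ℂ) * y)‖ ^ 2) ∧
      ∫ z, (∫ s in (0 : ℝ)..1, φ z * ‖F a (z + (s : ℂ) * y)‖ ^ 2) ≤ C' := by
    intro a ha
    obtain ⟨B, hB⟩ := hFb a
    exact fub hφc hφ.2.1 (hFc a) hB y C' (hD a ha)
  have hmemA : ∀ p ∈ Finset.HasAntidiagonal.antidiagonal N,
      ((p.1 : ℤ) - p.2) ∈ Finset.Icc (-(N : ℤ)) N := by
    intro p hp
    have := Finset.HasAntidiagonal.mem_antidiagonal.1 hp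
    rw [Finset.mem_Icc]
    omega
  have hmemB : ∀ p ∈ (Finset.range N ×ˢ Finset.range N).filter (fun p => ¬ p.1 + p.2 < N),
      ((p.1 : ℤ) - p.2) ∈ Finset.Icc (-(N : ℤ)) N := by
    intro p hp
    rw [Finset.mem_filter, Finset.mem_product, Finset.mem_range, Finset.mem_range] at hp
    rw [Finset.mem_Icc]
    omega
  have hi0 : ∀ a, Integrable (fun z => φ z * ‖F a z‖ ^ 2) := fun a =>
    (hφc.mul ((hFc a).norm.pow 2)).integrable_of_hasCompactSupport hφ.2.1.mul_right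
  have hb0 : ∀ a ∈ Finset.Icc (-(N : ℤ)) N, ∫ z, φ z * ‖F a z‖ ^ 2 ≤ C' := by
    intro a ha
    have h1 := hD a ha 0 ⟨le_rfl, zero_le_one⟩
    simpa using h1
  -- the majorant
  have iA : Integrable (fun z => ∑ p ∈ Finset.HasAntidiagonal.antidiagonal N,
      cf w p * ∫ s in (0 : ℝ)..1, φ z * ‖F ((p.1 : ℤ) - p.2) (z + (s : ℂ) * y)‖ ^ 2) :=
    integrable_finsetSum _ fun p hp => (hfub _ (hmemA p hp)).1.const_mul _
  have iB : Integrable (fun z =>
      ∑ p ∈ (Finset.range N ×ˢ Finset.range N).filter (fun p => ¬ p.1 + p.2 < N),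
      cf w p * (φ z * ‖F ((p.1 : ℤ) - p.2) z‖ ^ 2)) :=
    integrable_finsetSum _ fun p _ => (hi0 _).const_mul _
  have jA := ((iA.const_mul (∑ p ∈ Finset.HasAntidiagonal.antidiagonal N, cf w p)).const_mul
    ((N : ℝ) ^ 2)).const_mul 2
  have jB := (iB.const_mul (RR w N)).const_mul 2
  refine (integral_mono_of_nonneg (Eventually.of_forall fun z => ?_) (jA.add jB)
    (Eventually.of_forall fun z => ?_)).trans ?_
  · exact mul_nonneg (hφ0 _) (by positivity)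
  · simp only [Pi.add_apply]
    by_cases h0 : φ z = 0
    · simp [h0]
    · have hl : ∀ s ∈ Set.Icc (0 : ℝ) 1, Lad w (fun a s => U n a (z + (s : ℂ) * y)) s := by
        intro s hs
        rw [hy]
        refine lad hΩ hU n w z s ?_
        rw [← hy]
        exact (hK z h0 s hs).1
      have hp := point hl hN
      simp only [Complex.ofReal_one, one_mul, Complex.ofReal_zero, zero_mul, add_zero] at hp
      rw [← hy]
      have e1 : ∀ a : ℤ, ∫ s in (0 : ℝ)..1, ‖U n a (z + (s : ℂ) * y)‖ ^ 2 =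
          ∫ s in (0 : ℝ)..1, ‖F a (z + (s : ℂ) * y)‖ ^ 2 := by
        intro a
        refine intervalIntegral.integral_congr fun s hs => ?_
        rw [Set.uIcc_of_le zero_le_one] at hs
        rw [hF1 a _ (hK z h0 s hs).2]
      have e2 : ∀ a : ℤ, ‖U n a z‖ ^ 2 = ‖F a z‖ ^ 2 := by
        intro a
        have h1 := (hK z h0 0 ⟨le_rfl, zero_le_one⟩).2
        simp only [Complex.ofReal_zero, zero_mul, add_zero] at h1
        rw [hF1 a z h1]
      simp only [e1, e2] at hp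
      have h2 := mul_le_mul_of_nonneg_left hp (hφ0 z)
      refine h2.trans (le_of_eq ?_)
      simp only [intervalIntegral.integral_const_mul]
      rw [mul_add]
      have e3 : ∀ (s : Finset (ℕ × ℕ)) (f : ℕ × ℕ → ℝ), ∑ p ∈ s, cf w p * (φ z * f p) =
          φ z * ∑ p ∈ s, cf w p * f p := by
        intro s f
        rw [Finset.mul_sum]
        exact Finset.sum_congr rfl fun p _ => by ring
      rw [e3, e3]
      ring
  · simp only [Pi.add_apply]
    rw [integral_add jA jB, integral_const_mul, integral_const_mul, integral_const_mul,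
      integral_const_mul, integral_const_mul, integral_finsetSum _
        (fun p hp => (hfub _ (hmemA p hp)).1.const_mul _), integral_finsetSum _
        (fun p _ => (hi0 _).const_mul _)]
    simp only [integral_const_mul]
    have b1 : ∑ p ∈ Finset.HasAntidiagonal.antidiagonal N, cf w p *
        ∫ z, (∫ s in (0 : ℝ)..1, φ z * ‖F ((p.1 : ℤ) - p.2) (z + (s : ℂ) * y)‖ ^ 2) ≤
        (∑ p ∈ Finset.HasAntidiagonal.antidiagonal N, cf w p) * C' := by
      rw [Finset.sum_mul]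
      exact Finset.sum_le_sum fun p hp =>
        mul_le_mul_of_nonneg_left (hfub _ (hmemA p hp)).2 (cf_nonneg w p)
    have b2 : ∑ p ∈ (Finset.range N ×ˢ Finset.range N).filter (fun p => ¬ p.1 + p.2 < N), cf w p *
        ∫ z, φ z * ‖F ((p.1 : ℤ) - p.2) z‖ ^ 2 ≤ RR w N * C' := by
      unfold RR
      rw [Finset.sum_mul]
      exact Finset.sum_le_sum fun p hp =>
        mul_le_mul_of_nonneg_left (hb0 _ (hmemB p hp)) (cf_nonneg w p)
    have c0 : 0 ≤ ∑ p ∈ Finset.HasAntidiagonal.antidiagonal N, cf w p :=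
      Finset.sum_nonneg fun p _ => cf_nonneg w p
    have d1 := mul_le_mul_of_nonneg_left b1 c0
    have d2 := mul_le_mul_of_nonneg_left d1 (sq_nonneg (N : ℝ))
    have d3 := mul_le_mul_of_nonneg_left b2 (RR_nonneg w N)
    rw [cf_anti] at d2 ⊢
    nlinarith

open Pool.Agent.U26.SG (S_EN S_TR Loc2)

theorem t_TR : S_EN → S_TR := by
  intro hEN Ω h u C hL φ hφ hφ0 w ε hε
  have hΩ := hL.op
  have hU := fam hΩ hL.sol
  obtain ⟨r, hr, hrΩ⟩ := hφ.2.1.isCompact.exists_cthickening_subset_open hΩ hφ.2.2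
  have hK' : IsCompact (Metric.cthickening r (tsupport φ)) := hφ.2.1.isCompact.cthickening
  obtain ⟨ζ, hζ, hζ0, hζ1, hζK⟩ := cutoff hΩ hK' hrΩ
  obtain ⟨M, hM⟩ := hφ.2.1.exists_bound_of_continuous hφ.1.continuous
  have hM' : ∀ z, φ z ≤ M := fun z => (le_abs_self _).trans (by rw [← Real.norm_eq_abs]; exact hM z)
  have hM0 : 0 ≤ M := (hφ0 0).trans (hM' 0)
  have hlim : Tendsto (fun N : ℕ => 2 * ((N : ℝ) * (‖w‖ ^ N / N.factorial)) ^ 2 * (M * (C + 1)) +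
      2 * RR w N ^ 2 * (M * (C + 1))) atTop (𝓝 0) := by
    have h1 := ((((KK_lim w).pow 2).const_mul 2).mul_const (M * (C + 1))).add
      ((((RR_lim w).pow 2).const_mul 2).mul_const (M * (C + 1)))
    simpa using h1
  filter_upwards [hlim.eventually_le_const hε, eventually_ge_atTop 1] with N hNε hN
  have h1 : ∀ᶠ n in atTop, ∀ a ∈ Finset.Icc (-(N : ℤ)) N,
      |(∫ z, ζ z * ‖W (h n) (u n) a z‖ ^ 2) - ∫ z, ζ z * u n z ^ 2| ≤ 1 :=
    (Finset.eventually_all _).2 fun a _ => hEN Ω h u C hL ζ hζ hζ0 a 1 one_pos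
  have h2 : ∀ᶠ n in atTop, h n * ‖w‖ < r := by
    have h3 : Tendsto (fun n => h n * ‖w‖) atTop (𝓝 0) := by
      simpa using hL.hlim.mul_const ‖w‖
    exact h3.eventually_lt_const hr
  filter_upwards [h1, h2] with n hn hnr
  have hpos := (hL.sol n).hpos
  have hmass : ∫ z, ζ z * u n z ^ 2 ≤ C := by
    refine le_trans ?_ (hL.bd n)
    rw [← integral_indicator hΩ.measurableSet]
    refine integral_mono_of_nonneg (Eventually.of_forall fun z => ?_) ?_
      (Eventually.of_forall fun z => ?_)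
    · exact mul_nonneg (hζ0 z) (sq_nonneg _)
    · rw [integrable_indicator_iff hΩ.measurableSet]
      exact hL.int n
    · simp only
      by_cases hz : z ∈ Ω
      · rw [Set.indicator_of_mem hz]
        exact mul_le_of_le_one_left (sq_nonneg _) (hζ1 z)
      · rw [Set.indicator_of_notMem hz, Pool.Agent.Y265.RW.TF.zero hζ hz, zero_mul]
  refine (main_n (U := fun n a => W (h n) (u n) a) hΩ hU n hφ hφ0 hM' hζ hζ0 w ?_ hN
    (C' := M * (C + 1)) ?_).trans hNε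
  · intro z hz s hs
    have hzK : z ∈ tsupport φ := subset_tsupport _ hz
    have hmem : z + (s : ℂ) * ((h n : ℂ) * w) ∈ Metric.cthickening r (tsupport φ) := by
      refine Metric.mem_cthickening_of_dist_le _ z _ _ hzK ?_
      rw [dist_eq_norm, add_sub_cancel_left, norm_mul, norm_mul, Complex.norm_real, Complex.norm_real,
        Real.norm_of_nonneg hs.1, Real.norm_of_nonneg hpos.le]
      have h5 : 0 ≤ h n * ‖w‖ := by positivity
      nlinarith [hs.2]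
    exact ⟨hrΩ hmem, hζK _ hmem⟩
  · intro a ha
    have h5 := abs_le.1 (hn a ha)
    exact mul_le_mul_of_nonneg_left (by linarith [h5.2]) hM0

end

end Pool.Agent.U876.SG
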